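import Mathlib

/-!
Monomial germs of `ℂ³`: the order of vanishing of the iterates of the map
`(x, y, z) ↦ (z, x³, x³ y³ z)`.
-/

set_option autoImplicit false

namespace Pool.Agent.T9h73.MonoGerm

open Finset

noncomputable section

variable {n : ℕ}

/-- The monomial map with exponent matrix `A`. -/
def mono (A : Matrix (Fin n) (Fin n) ℕ) (v : Fin n → ℂ) : Fin n → ℂ :=
  fun i => ∏ j, v j ^ A i j

lemma mono_mono (A B : Matrix (Fin n) (Fin n) ℕ) (v : Fin n → ℂ) :
    mono A (mono B v) = mono (A * B) v := by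
  ext i
  simp only [mono, Matrix.mul_apply]
  simp_rw [← Finset.prod_pow, ← pow_mul]
  rw [Finset.prod_comm]
  refine Finset.prod_congr rfl fun j _ => ?_
  rw [Finset.prod_pow_eq_pow_sum]
  congr 1
  exact Finset.sum_congr rfl fun k _ => mul_comm _ _

lemma mono_one (v : Fin n → ℂ) : mono 1 v = v := by
  ext i
  simp only [mono, Matrix.one_apply]
  rw [Finset.prod_eq_single i]
  · simp
  · intro j _ hj
    simp [hj.symm]
  · simp

lemma mono_iterate (A : Matrix (Fin n) (Fin n) ℕ) (k : ℕ) : (mono A)^[k] = mono (A ^ k) := by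
  induction k with
  | zero => funext v; simp [mono_one]
  | succ k ih => funext v; rw [Function.iterate_succ_apply', ih, mono_mono, ← pow_succ']

lemma contDiff_mono_apply (A : Matrix (Fin n) (Fin n) ℕ) (i : Fin n) :
    ContDiff ℂ ⊤ (fun v => mono A v i) := by
  unfold mono
  exact contDiff_prod fun j _ => (contDiff_apply ℂ ℂ j).pow _

lemma contDiff_mono (A : Matrix (Fin n) (Fin n) ℕ) : ContDiff ℂ ⊤ (mono A) :=
  contDiff_pi.2 fun i => contDiff_mono_apply A i

/-- `h` vanishes to order at least `d` at the origin. -/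
def VanishTo (h : (Fin n → ℂ) → ℂ) (d : ℕ) : Prop :=
  ContDiff ℂ ⊤ h ∧ ∀ m < d, iteratedFDeriv ℂ m h 0 = 0

lemma VanishTo.mul {f g : (Fin n → ℂ) → ℂ} {a b : ℕ} (hf : VanishTo f a) (hg : VanishTo g b) :
    VanishTo (fun y => f y * g y) (a + b) := by
  refine ⟨hf.1.mul hg.1, fun m hm => ?_⟩
  rw [← norm_eq_zero]
  refine le_antisymm ?_ (norm_nonneg _)
  refine (norm_iteratedFDeriv_mul_le hf.1 hg.1 0 (n := m) le_top).trans ?_
  refine (Finset.sum_eq_zero fun i hi => ?_).le
  rw [Finset.mem_range] at hi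
  by_cases h : i < a
  · rw [hf.2 i h]; simp
  · rw [hg.2 (m - i) (by omega)]; simp

lemma vanishTo_coord (j : Fin n) : VanishTo (fun v => v j) 1 := by
  refine ⟨contDiff_apply ℂ ℂ j, fun m hm => ?_⟩
  obtain rfl : m = 0 := by omega
  ext v
  simp

lemma vanishTo_one : VanishTo (fun _ : Fin n → ℂ => (1 : ℂ)) 0 :=
  ⟨contDiff_const, fun m hm => by omega⟩

lemma vanishTo_pow (j : Fin n) (e : ℕ) : VanishTo (fun v => v j ^ e) e := by
  induction e with
  | zero => simpa using vanishTo_one
  | succ e ih => simpa [pow_succ] using ih.mul (vanishTo_coord j)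

lemma vanishTo_prod (s : Finset (Fin n)) (e : Fin n → ℕ) :
    VanishTo (fun v => ∏ j ∈ s, v j ^ e j) (∑ j ∈ s, e j) := by
  classical
  induction s using Finset.induction_on with
  | empty => simpa using vanishTo_one
  | insert a s ha ih =>
    simp only [Finset.prod_insert ha, Finset.sum_insert ha]
    exact (vanishTo_pow a (e a)).mul ih

lemma vanishTo_mono (A : Matrix (Fin n) (Fin n) ℕ) (i : Fin n) :
    VanishTo (fun v => mono A v i) (∑ j, A i j) := vanishTo_prod _ _

/-- The order of a monomial map is the least degree of its components. -/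
lemma order_mono (A : Matrix (Fin n) (Fin n) ℕ) (r : ℕ) (hr : ∀ i, r ≤ ∑ j, A i j)
    (i₀ : Fin n) (hi₀ : ∑ j, A i₀ j = r) :
    sInf {m : ℕ | iteratedFDeriv ℂ m (mono A) 0 ≠ 0} = r := by
  have hlow : ∀ m < r, iteratedFDeriv ℂ m (mono A) 0 = 0 := by
    intro m hm
    ext v i
    have h1 := (ContinuousLinearMap.proj (R := ℂ) (φ := fun _ : Fin n => ℂ) i).iteratedFDeriv_comp_left
      ((contDiff_mono A).contDiffAt (x := 0)) (i := m) le_top
    have h2 := (vanishTo_mono A i).2 m (hm.trans_le (hr i))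
    have h3 : (⇑(ContinuousLinearMap.proj (R := ℂ) (φ := fun _ : Fin n => ℂ) i) ∘ mono A)
        = fun v => mono A v i := rfl
    rw [h3, h2] at h1
    have h4 := congrArg (fun T => T v) h1
    simpa using h4.symm
  have hne : iteratedFDeriv ℂ r (mono A) 0 ≠ 0 := by
    intro h0
    let L : ℂ →L[ℂ] (Fin n → ℂ) := ContinuousLinearMap.pi fun _ => ContinuousLinearMap.id ℂ ℂ
    have hL : ∀ t, L t = fun _ => t := fun t => rfl
    have h1 := L.iteratedFDeriv_comp_right (contDiff_mono_apply A i₀) 0 (i := r) le_top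
    have h3 := (ContinuousLinearMap.proj (R := ℂ) (φ := fun _ : Fin n => ℂ) i₀).iteratedFDeriv_comp_left
      ((contDiff_mono A).contDiffAt (x := 0)) (i := r) le_top
    have h3' : (⇑(ContinuousLinearMap.proj (R := ℂ) (φ := fun _ : Fin n => ℂ) i₀) ∘ mono A)
        = fun v => mono A v i₀ := rfl
    rw [h3', h0] at h3
    have hL0 : L 0 = 0 := map_zero L
    rw [hL0, h3] at h1
    have h5 : ((fun v => mono A v i₀) ∘ L) = fun t : ℂ => t ^ r := by
      funext t
      simp only [Function.comp, mono, hL]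
      rw [Finset.prod_pow_eq_pow_sum, hi₀]
    rw [h5] at h1
    have h6 : iteratedDeriv r (fun t : ℂ => t ^ r) 0 = 0 := by
      rw [iteratedDeriv_eq_iteratedFDeriv, h1]
      simp
    rw [iteratedDeriv_pow] at h6
    simp [Nat.descFactorial_self, Nat.factorial_ne_zero] at h6
  refine le_antisymm (Nat.sInf_le hne) ?_
  refine le_csInf ⟨r, hne⟩ fun m hm => ?_
  by_contra h
  push Not at h
  exact hm (hlow m h)

end

end Pool.Agent.T9h73.MonoGerm
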