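import Mathlib

/-!
The integer sequences attached to the matrix with rows `(0,0,1)`, `(3,0,0)`, `(3,3,1)`: the minimum
of the first two row sums of its powers satisfies no linear recursion with integer coefficients.
-/

set_option autoImplicit false

namespace Pool.Agent.T9h73.MonoSeq

/-- The row sums of the powers of the matrix with rows `(0,0,1)`, `(3,0,0)`, `(3,3,1)`. -/
def R : ℕ → ℕ × ℕ × ℕ
  | 0 => (1, 1, 1)
  | k + 1 => ((R k).2.2, 3 * (R k).1, 3 * (R k).1 + 3 * (R k).2.1 + (R k).2.2)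

def x (k : ℕ) : ℕ := (R k).1
def y (k : ℕ) : ℕ := (R k).2.1
def z (k : ℕ) : ℕ := (R k).2.2

lemma x_zero : x 0 = 1 := rfl
lemma y_zero : y 0 = 1 := rfl
lemma z_zero : z 0 = 1 := rfl
lemma x_succ (k : ℕ) : x (k + 1) = z k := rfl
lemma y_succ (k : ℕ) : y (k + 1) = 3 * x k := rfl
lemma z_succ (k : ℕ) : z (k + 1) = 3 * x k + 3 * y k + z k := rfl

lemma le_z (k : ℕ) : x k ≤ z k ∧ y k ≤ z k := by
  cases k with
  | zero => simp [x_zero, y_zero, z_zero]
  | succ k => rw [x_succ, y_succ, z_succ]; omega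

/-- The difference of the first two row sums. -/
def δ (k : ℕ) : ℤ := (x k : ℤ) - y k

lemma δ_zero : δ 0 = 0 := rfl
lemma δ_one : δ 1 = -2 := rfl

/-- An invariant linear relation: the second entry of the row sums is determined. -/
lemma δ_rec (k : ℕ) : δ (k + 2) = -2 * δ (k + 1) - 3 * δ k := by
  simp only [δ, x_succ, y_succ, z_succ]
  push_cast
  ring

lemma mod_three (k : ℕ) : x (k + 1) % 3 = 1 ∧ y (k + 1) % 3 = 0 ∧ z k % 3 = 1 := by
  have hz : ∀ k, z k % 3 = 1 := by
    intro k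
    induction k with
    | zero => rfl
    | succ k ih => rw [z_succ]; omega
  refine ⟨?_, ?_, hz k⟩
  · rw [x_succ]; exact hz k
  · rw [y_succ]; omega

/-- `δ` as the imaginary part of the powers of `-1 + i √2`. -/
lemma δ_eq (k : ℕ) : ((δ k : ℤ) : ℝ) * Real.sqrt 2 = -2 * ((⟨-1, Real.sqrt 2⟩ : ℂ) ^ k).im := by
  have h2 : Real.sqrt 2 * Real.sqrt 2 = 2 := Real.mul_self_sqrt (by norm_num)
  set μ : ℂ := ⟨-1, Real.sqrt 2⟩ with hμ
  have hrec : ∀ k, (μ ^ (k + 2)).im = -2 * (μ ^ (k + 1)).im - 3 * (μ ^ k).im := by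
    intro k
    have : μ ^ 2 = -2 * μ - 3 := by
      apply Complex.ext
      · simp [pow_two, hμ, Complex.mul_re]
        linarith
      · simp [pow_two, hμ, Complex.mul_im]
        ring
    have h3 : μ ^ (k + 2) = -2 * μ ^ (k + 1) - 3 * μ ^ k := by
      rw [pow_add, this, pow_succ]; ring
    rw [h3]
    simp
  have key : ∀ k, ((δ k : ℤ) : ℝ) * Real.sqrt 2 = -2 * (μ ^ k).im ∧
      ((δ (k + 1) : ℤ) : ℝ) * Real.sqrt 2 = -2 * (μ ^ (k + 1)).im := by
    intro k
    induction k with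
    | zero =>
      constructor
      · simp [δ_zero]
      · simp [δ_one, hμ]
    | succ k ih =>
      refine ⟨ih.2, ?_⟩
      rw [show k + 1 + 1 = k + 2 from rfl, hrec, δ_rec]
      push_cast
      linarith [ih.1, ih.2]
  exact (key k).1

/-- A real sequence with a recursion of negative discriminant takes a non-positive value. -/
lemma not_pos (V : ℕ → ℝ) (T Q : ℝ) (hTQ : T ^ 2 < 4 * Q)
    (hrec : ∀ m, V (m + 2) = T * V (m + 1) - Q * V m) : ¬ ∀ m, 0 < V m := by
  intro hpos
  set ε : ℝ := Q - T ^ 2 / 4 with hε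
  have hεpos : 0 < ε := by rw [hε]; linarith
  set ρ : ℕ → ℝ := fun m => V (m + 1) / V m with hρ
  have hρpos : ∀ m, 0 < ρ m := fun m => div_pos (hpos _) (hpos _)
  have hstep : ∀ m, ρ (m + 1) = T - Q / ρ m := by
    intro m
    simp only [hρ]
    have h1 := (hpos m).ne'
    have h2 := (hpos (m + 1)).ne'
    rw [show m + 1 + 1 = m + 2 from rfl, hrec]
    field_simp
  have hdec : ∀ m, ρ (m + 1) ≤ ρ m - ε / ρ m := by
    intro m
    rw [hstep]
    have h1 := hρpos m
    have h2 : ε ≤ ρ m ^ 2 - T * ρ m + Q := by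
      rw [hε]; nlinarith [sq_nonneg (ρ m - T / 2)]
    have h3 : ε / ρ m ≤ (ρ m ^ 2 - T * ρ m + Q) / ρ m := div_le_div_of_nonneg_right h2 h1.le
    have h4 : (ρ m ^ 2 - T * ρ m + Q) / ρ m = ρ m - T + Q / ρ m := by
      field_simp
    linarith
  have hle : ∀ m, ρ m ≤ ρ 0 := by
    intro m
    induction m with
    | zero => exact le_rfl
    | succ m ih =>
      have h1 := hdec m
      have h2 : 0 < ε / ρ m := div_pos hεpos (hρpos m)
      linarith
  have hlin : ∀ m : ℕ, ρ m ≤ ρ 0 - m * (ε / ρ 0) := by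
    intro m
    induction m with
    | zero => simp
    | succ m ih =>
      have h1 := hdec m
      have h2 : ε / ρ 0 ≤ ε / ρ m := div_le_div_of_nonneg_left hεpos.le (hρpos m) (hle m)
      push_cast
      linarith
  obtain ⟨m, hm⟩ := exists_nat_gt (ρ 0 / (ε / ρ 0))
  have h0 : 0 < ε / ρ 0 := div_pos hεpos (hρpos 0)
  rw [div_lt_iff₀ h0] at hm
  have := hlin m
  have := hρpos m
  linarith

/-- The sign of `δ` is not eventually periodic. -/
lemma not_periodic (P k₀ : ℕ) (hP : 1 ≤ P)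
    (h : ∀ k, k₀ ≤ k → (δ (k + P) < 0 ↔ δ k < 0)) : False := by
  have hne : ∀ k, 1 ≤ k → δ k ≠ 0 := by
    intro k hk h0
    obtain ⟨j, rfl⟩ := Nat.exists_eq_add_of_le' hk
    have := mod_three j
    simp only [δ] at h0
    omega
  have h2 : (0:ℝ) < Real.sqrt 2 := Real.sqrt_pos.2 (by norm_num)
  set μ : ℂ := ⟨-1, Real.sqrt 2⟩ with hμ
  set w : ℂ := μ ^ P with hw
  have hwim : w.im ≠ 0 := by
    intro h0
    have h1 := δ_eq P
    rw [← hμ, ← hw, h0, mul_zero] at h1
    rcases mul_eq_zero.1 h1 with h3 | h3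
    · exact hne P hP (by exact_mod_cast h3)
    · exact h2.ne' h3
  set s : ℕ := k₀ + 1 with hs
  -- the subsequence
  have hrec : ∀ (c : ℝ) (m : ℕ), (c * (δ (s + (m + 2) * P) : ℝ))
      = (2 * w.re) * (c * (δ (s + (m + 1) * P) : ℝ)) - (w.re ^ 2 + w.im ^ 2) * (c * (δ (s + m * P) : ℝ)) := by
    intro c m
    have hA : ∀ j : ℕ, (μ ^ (s + j * P)) = μ ^ s * w ^ j := by
      intro j; rw [hw, ← pow_mul, ← pow_add, mul_comm j P]
    have hw2 : w ^ 2 = ((2 * w.re : ℝ) : ℂ) * w - ((w.re ^ 2 + w.im ^ 2 : ℝ) : ℂ) := by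
      apply Complex.ext
      · simp [pow_two]; ring
      · simp [pow_two]; ring
    have hB : μ ^ s * w ^ (m + 2) = ((2 * w.re : ℝ) : ℂ) * (μ ^ s * w ^ (m + 1))
        - ((w.re ^ 2 + w.im ^ 2 : ℝ) : ℂ) * (μ ^ s * w ^ m) := by
      rw [pow_add w m 2, hw2, pow_succ]; ring
    have hC := congrArg Complex.im hB
    rw [Complex.sub_im, Complex.im_ofReal_mul, Complex.im_ofReal_mul] at hC
    have e2 := δ_eq (s + (m + 2) * P)
    have e1 := δ_eq (s + (m + 1) * P)
    have e0 := δ_eq (s + m * P)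
    rw [← hμ, hA] at e2 e1 e0
    rw [hC] at e2
    have : Real.sqrt 2 * (c * (δ (s + (m + 2) * P) : ℝ)) = Real.sqrt 2 *
        ((2 * w.re) * (c * (δ (s + (m + 1) * P) : ℝ)) - (w.re ^ 2 + w.im ^ 2) * (c * (δ (s + m * P) : ℝ))) := by
      linear_combination c * e2 - c * (2 * w.re) * e1 + c * (w.re ^ 2 + w.im ^ 2) * e0
    exact mul_left_cancel₀ h2.ne' this
  have hdisc : (2 * w.re) ^ 2 < 4 * (w.re ^ 2 + w.im ^ 2) := by
    have : 0 < w.im ^ 2 := by positivity
    nlinarith
  have hsign : ∀ m : ℕ, (δ (s + m * P) < 0 ↔ δ s < 0) := by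
    intro m
    induction m with
    | zero => simp
    | succ m ih =>
      rw [← ih, show s + (m + 1) * P = s + m * P + P by ring]
      exact h _ (by omega)
  by_cases hneg : δ s < 0
  · refine not_pos (fun m => (-1) * (δ (s + m * P) : ℝ)) _ _ hdisc (hrec (-1)) ?_
    intro m
    have : (δ (s + m * P) : ℝ) < 0 := by exact_mod_cast (hsign m).2 hneg
    show 0 < (-1) * (δ (s + m * P) : ℝ)
    linarith
  · refine not_pos (fun m => 1 * (δ (s + m * P) : ℝ)) _ _ hdisc (hrec 1) ?_
    intro m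
    have h1 : ¬ δ (s + m * P) < 0 := fun h => hneg ((hsign m).1 h)
    have h3 : δ (s + m * P) ≠ 0 := hne _ (by omega)
    have : (0 : ℤ) < δ (s + m * P) := by omega
    have : (0:ℝ) < (δ (s + m * P) : ℝ) := by exact_mod_cast this
    show 0 < 1 * (δ (s + m * P) : ℝ)
    linarith

/-- The minimum of the first two row sums satisfies no linear recursion with integer
coefficients, even after discarding finitely many terms. -/
theorem no_recursion (d : ℕ) (a : Fin d → ℤ) (K : ℕ)
    (h : ∀ k, K ≤ k → ((min (x (k + d)) (y (k + d)) : ℕ) : ℤ)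
      = ∑ i : Fin d, a i * ((min (x (k + (i : ℕ))) (y (k + (i : ℕ))) : ℕ) : ℤ)) : False := by
  set u : ℕ → ZMod 3 := fun k => ((min (x k) (y k) : ℕ) : ZMod 3) with hu
  have hrec : ∀ k, K ≤ k → u (k + d) = ∑ i : Fin d, (a i : ZMod 3) * u (k + (i : ℕ)) := by
    intro k hk
    have h1 := congrArg (fun t : ℤ => (t : ZMod 3)) (h k hk)
    simp only [Int.cast_sum, Int.cast_mul, Int.cast_natCast] at h1
    exact h1
  -- pigeonhole
  set S : ℕ → (Fin d → ZMod 3) := fun k i => u (K + k + (i : ℕ)) with hS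
  obtain ⟨p, q, hpq, hSpq⟩ := Finite.exists_ne_map_eq_of_infinite S
  wlog hlt : p < q generalizing p q with H
  · exact H q p hpq.symm hSpq.symm (by omega)
  have hper : ∀ j : ℕ, u (K + p + j) = u (K + q + j) := by
    intro j
    induction j using Nat.strong_induction_on with
    | _ j ih =>
      by_cases hj : j < d
      · have := congrFun hSpq ⟨j, hj⟩
        simpa [hS] using this
      · obtain ⟨i, rfl⟩ := Nat.exists_eq_add_of_le' (not_lt.1 hj)
        rw [← Nat.add_assoc, ← Nat.add_assoc, hrec _ (by omega), hrec _ (by omega)]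
        refine Finset.sum_congr rfl fun t _ => ?_
        have := ih (i + (t : ℕ)) (by have := t.2; omega)
        rw [← Nat.add_assoc, ← Nat.add_assoc] at this
        rw [this]
  set P := q - p with hP
  have hP1 : 1 ≤ P := by omega
  have hper' : ∀ k, K + p ≤ k → u (k + P) = u k := by
    intro k hk
    obtain ⟨j, rfl⟩ := Nat.exists_eq_add_of_le hk
    rw [hper j]
    congr 1
    omega
  have hu_iff : ∀ k, (u (k + 1) = 1 ↔ δ (k + 1) < 0) := by
    intro k
    have h3 := mod_three k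
    have hcast : ∀ t : ℕ, ((t : ZMod 3) = 1 ↔ t % 3 = 1) := by
      intro t
      have := ZMod.natCast_eq_natCast_iff t 1 3
      rw [Nat.cast_one] at this
      rw [this]
      unfold Nat.ModEq
      omega
    simp only [hu, δ]
    rw [hcast]
    rcases le_total (x (k + 1)) (y (k + 1)) with hle | hle
    · rw [min_eq_left hle]
      omega
    · rw [min_eq_right hle]
      omega
  refine not_periodic P (K + p + 1) hP1 fun k hk => ?_
  obtain ⟨j, rfl⟩ := Nat.exists_eq_add_of_le' (show 1 ≤ k by omega)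
  rw [← hu_iff, show j + 1 + P = (j + P) + 1 by ring, ← hu_iff, show j + P + 1 = j + 1 + P by ring,
    hper' (j + 1) (by omega)]

end Pool.Agent.T9h73.MonoSeq
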