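import Mathlib

/-!
Stanley's argument: a graded domain `S`, finite and free over a polynomial subring `T = K[θ]`
with generator degrees of mean `e / 2`, where `e` is the degree of one generator, is isomorphic to
`Hom_T(S, T)`.
-/

namespace Pool.Agent.T9h73.Gor

open MvPolynomial

section

variable {K S : Type*} [Field K] [CommRing S] [Algebra K S]
  (A : ℕ → Submodule K S) [GradedAlgebra A]

/-- Homogeneous polynomials in elements of degree `q` are homogeneous. -/
theorem aeval_mem {σ : Type*} {q : ℕ} (θ : σ → S) (hθ : ∀ i, θ i ∈ A q)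
    (p : MvPolynomial σ K) (m : ℕ) (hp : p.IsHomogeneous m) :
    aeval θ p ∈ A (q * m) := by
  classical
  rw [p.as_sum, map_sum]
  refine Submodule.sum_mem _ fun s hs => ?_
  have hs' : ∑ i ∈ s.support, s i = m := by
    have := hp (by simpa [mem_support_iff] using hs)
    rw [Finsupp.weight_apply, Finsupp.sum] at this
    simpa using this
  rw [aeval_monomial, ← Algebra.smul_def]
  refine Submodule.smul_mem _ _ ?_
  rw [Finsupp.prod, ← hs', Finset.mul_sum]
  have : ∀ t : Finset σ, (∏ i ∈ t, θ i ^ s i) ∈ A (∑ i ∈ t, q * s i) := by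
    intro t
    induction t using Finset.induction_on with
    | empty => simpa using SetLike.GradedOne.one_mem (A := A)
    | insert a t ha ih =>
      rw [Finset.prod_insert ha, Finset.sum_insert ha]
      refine SetLike.GradedMul.mul_mem ?_ ih
      have := SetLike.pow_mem_graded (A := A) (s a) (hθ a)
      simpa [mul_comm] using this
  exact this _

/-- The coordinates of an element of degree `n` are homogeneous. -/
theorem coord_homog {σ I : Type*} [Fintype I] {q : ℕ} (hq : 0 < q) (θ : σ → S)
    (hθ : ∀ i, θ i ∈ A q) (b : I → S) (deg : I → ℕ) (hb : ∀ i, b i ∈ A (deg i))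
    (huniq : ∀ c c' : I → MvPolynomial σ K,
      (∑ i, aeval θ (c i) * b i) = ∑ i, aeval θ (c' i) * b i → c = c')
    (n : ℕ) (c : I → MvPolynomial σ K) (hc : (∑ i, aeval θ (c i) * b i) ∈ A n) (i : I) :
    c i = 0 ∨ ∃ m, q * m + deg i = n ∧ (c i).IsHomogeneous m := by
  classical
  -- the part of degree n
  let c' : I → MvPolynomial σ K := fun i =>
    if ∃ m, q * m + deg i = n then homogeneousComponent ((n - deg i) / q) (c i) else 0
  have hproj : ∀ (i : I) (p : MvPolynomial σ K),
      GradedRing.proj A n (aeval θ p * b i) =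
        aeval θ (if ∃ m, q * m + deg i = n then homogeneousComponent ((n - deg i) / q) p
          else 0) * b i := by
    intro i p
    conv_lhs => rw [← sum_homogeneousComponent p]
    rw [map_sum, Finset.sum_mul, map_sum]
    have hterm : ∀ m, GradedRing.proj A n (aeval θ (homogeneousComponent m p) * b i) =
        if q * m + deg i = n then aeval θ (homogeneousComponent m p) * b i else 0 := by
      intro m
      have hmem : aeval θ (homogeneousComponent m p) * b i ∈ A (q * m + deg i) :=
        SetLike.GradedMul.mul_mem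
          (aeval_mem A θ hθ _ m (homogeneousComponent_isHomogeneous m p)) (hb i)
      rw [GradedRing.proj_apply]
      by_cases h : q * m + deg i = n
      · rw [if_pos h]
        rw [h] at hmem
        exact DirectSum.decompose_of_mem_same _ hmem
      · rw [if_neg h]
        exact DirectSum.decompose_of_mem_ne _ hmem h
    simp_rw [hterm]
    by_cases hex : ∃ m, q * m + deg i = n
    · obtain ⟨m, hm⟩ := hex
      have hm' : (n - deg i) / q = m := by
        rw [← hm, Nat.add_sub_cancel, Nat.mul_div_cancel_left _ hq]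
      rw [if_pos ⟨m, hm⟩, hm']
      have hiff : ∀ m', (q * m' + deg i = n) ↔ m' = m := by
        intro m'
        constructor
        · intro h
          have : q * m' = q * m := by omega
          exact Nat.eq_of_mul_eq_mul_left hq this
        · rintro rfl; exact hm
      simp_rw [hiff]
      rw [Finset.sum_ite_eq']
      split_ifs with hmem
      · rfl
      · have : homogeneousComponent m p = 0 := by
          apply homogeneousComponent_eq_zero
          simpa [Nat.lt_succ_iff] using hmem
        rw [this, map_zero, zero_mul]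
    · rw [if_neg hex, map_zero, zero_mul]
      apply Finset.sum_eq_zero
      intro m _
      rw [if_neg]
      intro h
      exact hex ⟨m, h⟩
  have hsum : (∑ i, aeval θ (c i) * b i) = ∑ i, aeval θ (c' i) * b i := by
    have h1 : GradedRing.proj A n (∑ i, aeval θ (c i) * b i) = ∑ i, aeval θ (c i) * b i := by
      rw [GradedRing.proj_apply]
      exact DirectSum.decompose_of_mem_same _ hc
    rw [← h1, map_sum]
    exact Finset.sum_congr rfl fun i _ => hproj i (c i)
  have hcc := congrFun (huniq _ _ hsum) i
  by_cases hex : ∃ m, q * m + deg i = n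
  · right
    obtain ⟨m, hm⟩ := hex
    have hm' : (n - deg i) / q = m := by
      rw [← hm, Nat.add_sub_cancel, Nat.mul_div_cancel_left _ hq]
    refine ⟨m, hm, ?_⟩
    rw [hcc]
    simp only [c']
    rw [if_pos ⟨m, hm⟩, hm']
    exact homogeneousComponent_isHomogeneous m _
  · left
    rw [hcc]
    simp only [c']
    rw [if_neg hex]

end

section

variable {K S : Type*} [Field K] [CommRing S] [IsDomain S] [Algebra K S]
  (A : ℕ → Submodule K S) [GradedAlgebra A]

/-- **Gorenstein property** (Stanley). A graded domain `S` which is free over `T = K[θ]` on a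
finite family of homogeneous elements, one of them of degree `e`, such that the mean of their
degrees is `e / 2`: there is a `T`-linear `ξ : S → T`, lowering degrees by `e`, such that every
`T`-linear `φ : S → T` is `x ↦ ξ (s x)` for exactly one `s`. -/
theorem gorenstein' {σ I : Type*} [Fintype I] {q : ℕ} (hq : 0 < q) (θ : σ → S)
    (hθ : ∀ i, θ i ∈ A q) (b : I → S) (deg : I → ℕ) (hb : ∀ i, b i ∈ A (deg i))
    (hfree : ∀ x : S, ∃! c : I → MvPolynomial σ K, x = ∑ i, aeval θ (c i) * b i)
    (e : ℕ) (i₀ : I) (hi₀ : deg i₀ = e) (hsum : 2 * ∑ i, deg i = Fintype.card I * e) :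
    ∃ ξ : S → MvPolynomial σ K, (∀ x y, ξ (x + y) = ξ x + ξ y) ∧
      (∀ t x, ξ (aeval θ t * x) = t * ξ x) ∧
      (∀ φ : S → MvPolynomial σ K, (∀ x y, φ (x + y) = φ x + φ y) →
        (∀ t x, φ (aeval θ t * x) = t * φ x) → ∃! s : S, ∀ x, φ x = ξ (s * x)) ∧
      ∀ n, ∀ x ∈ A n, ξ x = 0 ∨ ∃ m, q * m + e = n ∧ (ξ x).IsHomogeneous m := by
  classical
  have huniq : ∀ c c' : I → MvPolynomial σ K,
      (∑ i, aeval θ (c i) * b i) = ∑ i, aeval θ (c' i) * b i → c = c' := by
    intro c c' h
    exact (hfree _).unique rfl h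
  choose κ hκ _ using hfree
  have hκeq : ∀ (x : S) (c : I → MvPolynomial σ K), x = ∑ i, aeval θ (c i) * b i → κ x = c :=
    fun x c h => huniq _ _ ((hκ x).symm.trans h)
  have hκadd : ∀ x y, κ (x + y) = κ x + κ y := by
    intro x y
    apply hκeq
    conv_lhs => rw [hκ x, hκ y, ← Finset.sum_add_distrib]
    refine Finset.sum_congr rfl fun i _ => ?_
    rw [Pi.add_apply, map_add, add_mul]
  have hκmul : ∀ (t : MvPolynomial σ K) (x : S), κ (aeval θ t * x) = fun i => t * κ x i := by
    intro t x
    apply hκeq
    conv_lhs => rw [hκ x, Finset.mul_sum]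
    refine Finset.sum_congr rfl fun i _ => ?_
    rw [map_mul, mul_assoc]
  have hκb : ∀ j, κ (b j) = Pi.single j 1 := by
    intro j
    apply hκeq
    rw [Finset.sum_eq_single j]
    · simp
    · intro i _ hij
      rw [Pi.single_eq_of_ne hij, map_zero, zero_mul]
    · intro h; exact absurd (Finset.mem_univ _) h
  set ξ : S → MvPolynomial σ K := fun x => κ x i₀ with hξ
  have hξadd : ∀ x y, ξ (x + y) = ξ x + ξ y := fun x y => by simp [hξ, hκadd]
  have hξmul : ∀ t x, ξ (aeval θ t * x) = t * ξ x := fun t x => by simp [hξ, hκmul]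
  have hlin : ∀ φ : S → MvPolynomial σ K, (∀ x y, φ (x + y) = φ x + φ y) →
      (∀ t x, φ (aeval θ t * x) = t * φ x) → ∀ (J : Finset I) (c : I → MvPolynomial σ K)
      (g : I → S), φ (∑ i ∈ J, aeval θ (c i) * g i) = ∑ i ∈ J, c i * φ (g i) := by
    intro φ hadd hmul J c g
    induction J using Finset.induction_on with
    | empty =>
      have := hmul 0 0
      simpa using this
    | insert a J ha ih =>
      rw [Finset.sum_insert ha, Finset.sum_insert ha, hadd, hmul, ih]
  -- injectivity
  have hinj : ∀ f : S, (∀ x, ξ (f * x) = 0) → f = 0 := by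
    intro f hf
    by_contra hf0
    let _ : Algebra (MvPolynomial σ K) S := (aeval θ : MvPolynomial σ K →ₐ[K] S).toRingHom.toAlgebra
    have halg : ∀ t : MvPolynomial σ K, algebraMap (MvPolynomial σ K) S t = aeval θ t :=
      fun t => rfl
    have hfin : Module.Finite (MvPolynomial σ K) S := by
      refine ⟨⟨Finset.univ.image b, ?_⟩⟩
      rw [eq_top_iff]
      intro x _
      rw [hκ x]
      refine Submodule.sum_mem _ fun i _ => ?_
      have : aeval θ (κ x i) * b i = (κ x i) • b i := by
        rw [Algebra.smul_def, halg]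
      rw [this]
      exact Submodule.smul_mem _ _ (Submodule.subset_span (by simp))
    have hint : IsIntegral (MvPolynomial σ K) f := Algebra.IsIntegral.isIntegral f
    have hcomap : (Ideal.span {f}).comap (algebraMap (MvPolynomial σ K) S) ≠ ⊥ :=
      Ideal.comap_ne_bot_of_integral_mem hf0 (Ideal.mem_span_singleton_self f) hint
    obtain ⟨t, ht, ht0⟩ := Submodule.exists_mem_ne_zero_of_ne_bot hcomap
    rw [Ideal.mem_comap, Ideal.mem_span_singleton', halg] at ht
    obtain ⟨g, hg⟩ := ht
    apply ht0
    have h1 := hf (g * b i₀)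
    rw [← mul_assoc, mul_comm f g, hg, hξmul] at h1
    simpa [hξ, hκb] using h1
  -- the Gram matrix
  let G : Matrix I I (MvPolynomial σ K) := fun i j => ξ (b i * b j)
  have hGsymm : ∀ i j, G i j = G j i := fun i j => by simp [G, mul_comm]
  have hdet0 : G.det ≠ 0 := by
    intro h0
    obtain ⟨v, hv0, hv⟩ := Matrix.exists_mulVec_eq_zero_iff.mpr h0
    apply hv0
    have hz : (∑ j, aeval θ (v j) * b j) = 0 := by
      apply hinj
      intro x
      have hb0 : ∀ i, ξ ((∑ j, aeval θ (v j) * b j) * b i) = 0 := by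
        intro i
        rw [Finset.sum_mul]
        simp_rw [mul_assoc]
        rw [hlin ξ hξadd hξmul]
        have := congrFun hv i
        simp only [Matrix.mulVec, dotProduct, Pi.zero_apply] at this
        rw [← this]
        refine Finset.sum_congr rfl fun j _ => ?_
        rw [mul_comm (v j), hGsymm i j]
      rw [hκ x, Finset.mul_sum]
      have : ∀ i, (∑ j, aeval θ (v j) * b j) * (aeval θ (κ x i) * b i) =
          aeval θ (κ x i) * ((∑ j, aeval θ (v j) * b j) * b i) := fun i => by ring
      simp_rw [this]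
      rw [hlin ξ hξadd hξmul]
      simp [hb0]
    refine huniq _ _ ?_
    rw [hz]
    simp
  have hGhom : ∀ i j, G i j = 0 ∨ ∃ m, q * m + e = deg i + deg j ∧ (G i j).IsHomogeneous m := by
    intro i j
    have hmem : b i * b j ∈ A (deg i + deg j) := SetLike.GradedMul.mul_mem (hb i) (hb j)
    have h2 : (∑ k, aeval θ (κ (b i * b j) k) * b k) ∈ A (deg i + deg j) := by
      rw [← hκ]; exact hmem
    have := coord_homog A hq θ hθ b deg hb huniq (deg i + deg j) _ h2 i₀
    rw [hi₀] at this
    exact this
  have hdethom : G.det.IsHomogeneous 0 := by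
    rw [Matrix.det_apply]
    refine IsHomogeneous.sum _ _ _ fun τ _ => ?_
    have hprod : (∏ i, G (τ i) i).IsHomogeneous 0 := by
      by_cases hz : ∃ i, G (τ i) i = 0
      · obtain ⟨i, hi⟩ := hz
        have h0 : (∏ i, G (τ i) i) = 0 := Finset.prod_eq_zero (Finset.mem_univ i) hi
        rw [h0]
        exact isHomogeneous_zero _ _ _
      · push Not at hz
        have hm : ∀ i, ∃ m, q * m + e = deg (τ i) + deg i ∧ (G (τ i) i).IsHomogeneous m :=
          fun i => (hGhom (τ i) i).resolve_left (hz i)
        choose m hm1 hm2 using hm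
        have h3 : (∑ i, (q * m i + e)) = ∑ i, (deg (τ i) + deg i) :=
          Finset.sum_congr rfl fun i _ => hm1 i
        rw [Finset.sum_add_distrib, Finset.sum_add_distrib, ← Finset.mul_sum,
          Equiv.sum_comp τ deg, Finset.sum_const, Finset.card_univ, smul_eq_mul] at h3
        have h4 : q * ∑ i, m i = 0 := by omega
        have h5 : ∑ i, m i = 0 := by
          rcases Nat.mul_eq_zero.mp h4 with h | h
          · omega
          · exact h
        rw [← h5]
        exact IsHomogeneous.prod _ _ _ fun i _ => hm2 i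
    rcases Int.units_eq_one_or (Equiv.Perm.sign τ) with h | h
    · rw [h, one_smul]; exact hprod
    · rw [h, Units.neg_smul, one_smul]
      exact hprod.neg
  have hunit : IsUnit G.det := by
    have h6 : G.det = C (coeff 0 G.det) := by
      have := homogeneousComponent_zero (φ := G.det)
      rw [homogeneousComponent_of_mem hdethom] at this
      simpa using this
    have h7 : coeff 0 G.det ≠ 0 := by
      intro h
      apply hdet0
      rw [h6, h, map_zero]
    rw [h6]
    exact (IsUnit.mk0 _ h7).map C
  refine ⟨ξ, hξadd, hξmul, fun φ hadd hmul => ?_, fun n x hx => ?_⟩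
  rotate_left
  · have h2 : (∑ k, aeval θ (κ x k) * b k) ∈ A n := by
      rw [← hκ]; exact hx
    have := coord_homog A hq θ hθ b deg hb huniq n _ h2 i₀
    rw [hi₀] at this
    exact this
  have hex : ∃ s : S, ∀ x, φ x = ξ (s * x) := by
    let v : I → MvPolynomial σ K := G⁻¹.mulVec (fun i => φ (b i))
    have hv : G.mulVec v = fun i => φ (b i) := by
      simp only [v]
      rw [Matrix.mulVec_mulVec, Matrix.mul_nonsing_inv _ hunit, Matrix.one_mulVec]
    refine ⟨∑ j, aeval θ (v j) * b j, fun x => ?_⟩
    have hb0 : ∀ i, ξ ((∑ j, aeval θ (v j) * b j) * b i) = φ (b i) := by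
      intro i
      rw [Finset.sum_mul]
      simp_rw [mul_assoc]
      rw [hlin ξ hξadd hξmul]
      have := congrFun hv i
      simp only [Matrix.mulVec, dotProduct] at this
      rw [← this]
      refine Finset.sum_congr rfl fun j _ => ?_
      rw [mul_comm (v j), hGsymm i j]
    conv_lhs => rw [hκ x]
    conv_rhs => rw [hκ x, Finset.mul_sum]
    have : ∀ i, (∑ j, aeval θ (v j) * b j) * (aeval θ (κ x i) * b i) =
        aeval θ (κ x i) * ((∑ j, aeval θ (v j) * b j) * b i) := fun i => by ring
    simp_rw [this]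
    rw [hlin ξ hξadd hξmul, hlin φ hadd hmul]
    exact Finset.sum_congr rfl fun i _ => by rw [hb0 i]
  obtain ⟨s, hs⟩ := hex
  refine ⟨s, hs, fun s' hs' => ?_⟩
  have h0 : s' - s = 0 := by
    apply hinj
    intro x
    have h1 : ξ (s' * x) = ξ ((s' - s) * x) + ξ (s * x) := by
      rw [← hξadd]; congr 1; ring
    have h2 : ξ (s' * x) = ξ (s * x) := by rw [← hs, ← hs']
    rw [h2] at h1
    simpa using h1
  exact sub_eq_zero.mp h0

/-- **Gorenstein property** (Stanley), without the degree of `ξ`. -/
theorem gorenstein {σ I : Type*} [Fintype I] {q : ℕ} (hq : 0 < q) (θ : σ → S)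
    (hθ : ∀ i, θ i ∈ A q) (b : I → S) (deg : I → ℕ) (hb : ∀ i, b i ∈ A (deg i))
    (hfree : ∀ x : S, ∃! c : I → MvPolynomial σ K, x = ∑ i, aeval θ (c i) * b i)
    (e : ℕ) (i₀ : I) (hi₀ : deg i₀ = e) (hsum : 2 * ∑ i, deg i = Fintype.card I * e) :
    ∃ ξ : S → MvPolynomial σ K, (∀ x y, ξ (x + y) = ξ x + ξ y) ∧
      (∀ t x, ξ (aeval θ t * x) = t * ξ x) ∧
      ∀ φ : S → MvPolynomial σ K, (∀ x y, φ (x + y) = φ x + φ y) →
        (∀ t x, φ (aeval θ t * x) = t * φ x) → ∃! s : S, ∀ x, φ x = ξ (s * x) := by
  obtain ⟨ξ, h1, h2, h3, _⟩ := gorenstein' A hq θ hθ b deg hb hfree e i₀ hi₀ hsum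
  exact ⟨ξ, h1, h2, h3⟩

/-- Symmetric degrees have mean `e / 2`. -/
theorem two_mul_sum_deg {I : Type*} [Fintype I] (deg : I → ℕ) (e : ℕ) (hle : ∀ i, deg i ≤ e)
    (hsymm : ∀ j, j ≤ e → (Finset.univ.filter fun i => deg i = j).card =
      (Finset.univ.filter fun i => deg i = e - j).card) :
    2 * ∑ i, deg i = Fintype.card I * e := by
  classical
  have key : ∀ f : ℕ → ℕ, ∑ i, f (deg i) =
      ∑ j ∈ Finset.range (e + 1), (Finset.univ.filter fun i => deg i = j).card * f j := by
    intro f
    rw [← Finset.sum_fiberwise_of_maps_to (s := Finset.univ) (t := Finset.range (e + 1))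
      (g := deg) (fun i _ => Finset.mem_range.mpr (Nat.lt_succ_of_le (hle i)))]
    refine Finset.sum_congr rfl fun j _ => ?_
    rw [Finset.sum_congr rfl (g := fun _ => f j)
      (fun i hi => by rw [(Finset.mem_filter.mp hi).2]), Finset.sum_const, smul_eq_mul]
  have h1 : ∑ i, deg i = ∑ i, (e - deg i) := by
    rw [key (fun j => j), key (fun j => e - j), ← Finset.sum_range_reflect]
    refine Finset.sum_congr rfl fun j hj => ?_
    have hj' : j ≤ e := Nat.lt_succ_iff.mp (Finset.mem_range.mp hj)
    have : e + 1 - 1 - j = e - j := by omega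
    rw [this, ← hsymm j hj']
  have h2 : ∑ i, deg i + ∑ i, (e - deg i) = Fintype.card I * e := by
    rw [← Finset.sum_add_distrib, Finset.sum_congr rfl (g := fun _ => e)
      (fun i _ => by have := hle i; omega), Finset.sum_const, Finset.card_univ, smul_eq_mul]
  omega

end

end Pool.Agent.T9h73.Gor
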