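import Pool.Agent.T9h29.NA.Iface
import Pool.Agent.T9h73.Gor

/-!
`IsGorenstein` (interface of `MP_954e53_ag.NegativeAnswer`) from a free basis with symmetric
degrees over a domain.
-/

namespace Pool.Agent.T9h73.Gor

open MvPolynomial Pool.Agent.T9h29.NA

variable {K : Type*} [Field K] {S : Type*} [CommRing S] [IsDomain S] [Algebra K S]
  (A : ℕ → Submodule K S) [GradedAlgebra A]

omit [IsDomain S] in
/-- A free basis may be reindexed. -/
theorem isFreeBasis_reindex {d : ℕ} {θ : Fin d → S} {I J : Type} [Fintype I] [Fintype J]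
    {b : I → S} (h : IsFreeBasis K θ b) (f : J ≃ I) : IsFreeBasis K θ (b ∘ f) := by
  intro x
  obtain ⟨c, hc, hu⟩ := h x
  refine ⟨c ∘ f, ?_, fun c' hc' => ?_⟩
  · show x = ∑ i, aeval θ (c (f i)) * b (f i)
    rw [Equiv.sum_comp f (fun i => aeval θ (c i) * b i)]
    exact hc
  · have h1 : c' ∘ f.symm = c := by
      apply hu
      show x = ∑ i, aeval θ (c' (f.symm i)) * b i
      rw [← Equiv.sum_comp f (fun i => aeval θ (c' (f.symm i)) * b i)]
      simpa using hc'
    rw [← h1]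
    funext j
    simp

/-- **`S` is Gorenstein with `a`-invariant `-1`.** -/
theorem isGorenstein_of_free {d q : ℕ} (hq : 0 < q) (θ : Fin d → S) (hθ : ∀ i, θ i ∈ A q)
    {I : Type} [Fintype I] (b : I → S) (deg : I → ℕ) (hb : ∀ i, b i ∈ A (deg i))
    (hfree : IsFreeBasis K θ b) (hle : ∀ i, deg i + 1 ≤ q * d)
    (hsymm : ∀ j, j + 1 ≤ q * d → (Finset.univ.filter fun i => deg i = j).card =
      (Finset.univ.filter fun i => deg i + 1 + j = q * d).card)
    (i₀ : I) (hi₀ : deg i₀ + 1 = q * d) : IsGorenstein A := by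
  classical
  obtain ⟨e, he⟩ : ∃ e, q * d = e + 1 := ⟨deg i₀, hi₀.symm⟩
  have hsum : 2 * ∑ i, deg i = Fintype.card I * e := by
    refine two_mul_sum_deg deg e (fun i => by have := hle i; omega) fun j hj => ?_
    rw [hsymm j (by omega)]
    congr 1
    ext i
    simp only [Finset.mem_filter, Finset.mem_univ, true_and]
    omega
  obtain ⟨ξ, h1, h2, h3, h4⟩ := gorenstein' A hq θ hθ b deg hb hfree e i₀ (by omega) hsum
  refine ⟨d, q, θ, Fintype.card I, b ∘ (Fintype.equivFin I).symm, ξ, hq, hθ,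
    fun i => ⟨_, hb _⟩, isFreeBasis_reindex hfree _, ⟨h1, h2⟩, fun ψ hψ => h3 ψ hψ.1 hψ.2, ?_⟩
  intro n x hx hne
  obtain ⟨m, hm, hhom⟩ := (h4 n x hx).resolve_left hne
  refine ⟨m, hhom, ?_⟩
  rw [mul_add, he]
  omega

end Pool.Agent.T9h73.Gor
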